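import Pool.Agent.Helper2.LD.St1

/-!
# LD project, module J12: the first two rounds
-/

set_option autoImplicit false

namespace Pool.Agent.Helper36.LD

open Pool.Agent.Helper2.LD

section

variable {K V V' : Type} {k : ℕ} {C : KCode k K}

private theorem brL_eq {lab : V → Finset K} {lab' : V' → Finset K} {h : ℕ} (s : V) (s' : V')
    (l : List (Finset K)) (hl : l.length ≤ h ∧ okl l) (e : lab s = lab' s') :
    brL (h := h) lab ⟨(s, l), hl⟩ = brL (h := h) lab' ⟨(s', l), hl⟩ := by
  cases l with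
  | nil => simpa [brL] using e
  | cons c t => simp [brL]

/-- the vertex with the same list and name at another hub with the same label -/
private def mate {lab : V → Finset K} {lab' : V' → Finset K} (u : FullV k C lab) (s' : V')
    (e : lab (own u).1.1 = lab' s') : FullV k C lab' :=
  ⟨(⟨(s', (own u).1.2), (own u).2⟩, fb u), by
    have h := u.2
    have h2 : brL lab (own u) = brL lab' (⟨(s', (own u).1.2), (own u).2⟩ : BrV K V' (HH k)) :=
      brL_eq (own u).1.1 s' (own u).1.2 (own u).2 e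
    have h3 : Fb.ok (MM k) C.code (brL lab (own u)) (fb u) := h
    rw [h2] at h3
    exact h3⟩

private theorem own_mate {lab : V → Finset K} {lab' : V' → Finset K} (u : FullV k C lab) (s' : V')
    (e : lab (own u).1.1 = lab' s') : (own (mate u s' e)).1 = (s', (own u).1.2) := rfl

private theorem fb_mate {lab : V → Finset K} {lab' : V' → Finset K} (u : FullV k C lab) (s' : V')
    (e : lab (own u).1.1 = lab' s') : fb (mate u s' e) = fb u := rfl

private theorem PairEq_symm {N e : ℕ} {S : SimpleGraph V} {lab : V → Finset K}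
    {S' : SimpleGraph V'} {lab' : V' → Finset K} {s t : V} {s' t' : V'}
    (h : PairEq N e S lab S' lab' s t s' t') : PairEq N e S' lab' S lab s' t' s t :=
  ⟨h.1.symm, h.2.1.symm, fun d hd => (h.2.2.1 d hd).symm, fun p κ => (h.2.2.2 p κ).symm⟩

end

theorem pJ12 : StJ12 := by
  intro K V V' _ _ k C S lab S' lab' hD
  refine ⟨?_, ?_, ?_, ?_⟩
  · intro u
    obtain ⟨s', hs'⟩ := hD.1 (own u).1.1
    exact ⟨mate u s' hs'.1, hs', rfl, rfl⟩
  · intro u'
    obtain ⟨s, hs⟩ := hD.2 (own u').1.1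
    exact ⟨mate u' s hs.1.symm, hs, rfl, rfl⟩
  · intro u u' hJ
    obtain ⟨h1, h2, h3⟩ := hJ
    refine ⟨?_, ?_⟩
    · intro v
      obtain ⟨t', ht'⟩ := h1.2.1 (own v).1.1
      exact ⟨mate v t' ht'.1, ⟨h2, rfl, h1.1, ht'⟩, h3, rfl⟩
    · intro v'
      obtain ⟨t, ht⟩ := h1.2.2 (own v').1.1
      exact ⟨mate v' t ht.1.symm, ⟨h2, rfl, h1.1, ht⟩, h3, rfl⟩
  · intro u v u' v' hJ
    obtain ⟨⟨h1, h2, h3, h4⟩, h5, h6⟩ := hJ
    exact ⟨⟨h1.symm, h2.symm, h3.symm, PairEq_symm h4⟩, h5.symm, h6.symm⟩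

end Pool.Agent.Helper36.LD
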