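import Pool.Agent.Helper2.LD.St2b
import Pool.Agent.Helper2.LD.St1b

/-!
# LD project, module LocF: the full graph satisfies the local axioms
-/

set_option autoImplicit false

namespace Pool.Agent.Helper36.LD

open Pool.Agent.Helper2.LD

section

variable {K V : Type} {k : ℕ} {C : KCode k K} {S : SimpleGraph V} {lab : V → Finset K}

private theorem adj_iff (u v : FullV k C lab) : (full k C S lab).Adj u v ↔
    ((brG K S (HH k)).Adj (own u) (own v) ∧ fb u = Fb.root ∧ fb v = Fb.root) ∨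
      (own u = own v ∧ Fb.adj (fb u) (fb v)) := Iff.rfl

private theorem ext' {u v : FullV k C lab} (h1 : own u = own v) (h2 : fb u = fb v) : u = v := by
  obtain ⟨⟨x, f⟩, hu⟩ := u
  obtain ⟨⟨y, g⟩, hv⟩ := v
  have h1' : x = y := h1
  have h2' : f = g := h2
  subst h1' h2'
  rfl

private theorem ok_clOf {m : ℕ} {code : K → Finset ℕ} {L : Finset K} {f : Fb K}
    (h : Fb.ok m code L f) : (clOf f).ok code := by
  cases f <;> simp_all [clOf, Cl.ok, Fb.ok]

private theorem ok_par {m : ℕ} {code : K → Finset ℕ} {L : Finset K} {f : Fb K}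
    (h : Fb.ok m code L f) : Fb.ok m code L f.par := by
  cases f with
  | root => exact h
  | a1 κ c => simp [Fb.par, Fb.ok]
  | a2 κ c => simp [Fb.par, Fb.ok]
  | r κ c => simp [Fb.par, Fb.ok]
  | lf κ c i => simp [Fb.par, Fb.ok]
  | mk κ c i j =>
    simp only [Fb.ok] at h
    simp only [Fb.par]
    split_ifs with hj
    · simp [Fb.ok]
    · simp only [Fb.ok]
      exact ⟨h.1, by omega, by omega⟩

private theorem clOf_par {f : Fb K} : clOf f.par = (clOf f).par := by
  cases f with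
  | root => rfl
  | a1 κ c => rfl
  | a2 κ c => rfl
  | r κ c => rfl
  | lf κ c i => rfl
  | mk κ c i j =>
    simp only [Fb.par, clOf, Cl.par]
    split_ifs with hj
    · rfl
    · rfl

private theorem clOf_pl {f : Fb K} : clOf f = Cl.pl ↔ f = Fb.root := by
  cases f <;> simp [clOf]

private theorem par_par {c : Cl K} (h : c ≠ Cl.pl) : c ≠ c.par.par := by
  cases c with
  | pl => exact absurd rfl h
  | a1 κ => simp [Cl.par]
  | a2 κ => simp [Cl.par]
  | r κ => simp [Cl.par]
  | l κ => simp [Cl.par]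
  | m κ i j =>
    simp only [Cl.par]
    by_cases hj : j ≤ 1
    · rw [if_pos hj]; simp
    · rw [if_neg hj]
      simp only []
      by_cases hj2 : j - 1 ≤ 1
      · rw [if_pos hj2]; simp
      · rw [if_neg hj2]
        intro h1
        have h2 : j = j - 1 - 1 := by
          injection h1
        omega

/-- the vertex with name `g` at the owner of `u` -/
private def at' (u : FullV k C lab) (g : Fb K)
    (h : Fb.ok (MM k) C.code (brL lab (own u)) g) : FullV k C lab := ⟨(own u, g), h⟩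

private theorem ok_fb (u : FullV k C lab) :
    Fb.ok (MM k) C.code (brL lab (own u)) (fb u) := u.2

private theorem clOf_a1 {f : Fb K} {κ : K} (h : Cl.a1 κ = clOf f) : ∃ c, f = Fb.a1 κ c := by
  cases f <;> simp [clOf] at h
  subst h; exact ⟨_, rfl⟩

private theorem clOf_a2 {f : Fb K} {κ : K} (h : Cl.a2 κ = clOf f) : ∃ c, f = Fb.a2 κ c := by
  cases f <;> simp [clOf] at h
  subst h; exact ⟨_, rfl⟩

private theorem clOf_r {f : Fb K} {κ : K} (h : Cl.r κ = clOf f) : ∃ c, f = Fb.r κ c := by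
  cases f <;> simp [clOf] at h
  subst h; exact ⟨_, rfl⟩

private theorem clOf_m {f : Fb K} {κ : K} {i j : ℕ} (h : Cl.m κ i j = clOf f) :
    ∃ c, f = Fb.mk κ c i j := by
  cases f <;> simp [clOf] at h
  obtain ⟨rfl, rfl, rfl⟩ := h; exact ⟨_, rfl⟩

/-- a neighbour of a vertex whose name is not the root, or whose own name is not the root, has the
same owner and an adjacent name -/
private theorem adj_own {u v : FullV k C lab} (h : (full k C S lab).Adj u v)
    (hn : fb u ≠ Fb.root ∨ fb v ≠ Fb.root) : own u = own v ∧ Fb.adj (fb u) (fb v) := by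
  rcases (adj_iff u v).1 h with ⟨_, h1, h2⟩ | h
  · rcases hn with hn | hn
    · exact absurd h1 hn
    · exact absurd h2 hn
  · exact h

private theorem a2_of {c c' : Bool} {κ : K} (h : Fb.adj (Fb.a1 κ c) (Fb.a2 κ c')) : c' = c := by
  rcases h with ⟨_, h⟩ | ⟨_, h⟩
  · simp [Fb.par] at h
  · simp [Fb.par] at h; exact h.symm

private theorem r_of {c c' : Bool} {κ : K} (h : Fb.adj (Fb.a2 κ c) (Fb.r κ c')) : c' = c := by
  rcases h with ⟨_, h⟩ | ⟨_, h⟩
  · simp [Fb.par] at h
  · simp [Fb.par] at h; exact h.symm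

private theorem mk1_of {c c' : Bool} {κ : K} {i j : ℕ}
    (h : Fb.adj (Fb.a1 κ c) (Fb.mk κ c' i j)) : c' = c := by
  rcases h with ⟨_, h⟩ | ⟨_, h⟩
  · simp [Fb.par] at h
  · simp only [Fb.par] at h
    split_ifs at h with hj
    simp at h
    exact h.symm

private theorem mk_of {c c' : Bool} {κ : K} {i j j' : ℕ} (hj : j < j')
    (h : Fb.adj (Fb.mk κ c i j) (Fb.mk κ c' i j')) : c' = c := by
  rcases h with ⟨_, h⟩ | ⟨_, h⟩
  · simp only [Fb.par] at h
    split_ifs at h with h1
    simp at h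
    exact h.1
  · simp only [Fb.par] at h
    split_ifs at h with h1
    simp at h
    exact h.1.symm

end

theorem pLocF (hIs : StIs) (hD : StDegF) : StLocF := by
  intro K V _ _ k hk hK C S lab
  have I : ∀ (v : FullV k C lab) (c : Cl K), c.ok C.code →
      (Is k C.code (full k C S lab) c v ↔ c = clOf (fb v)) :=
    fun v c hc => hIs k hk hK C S lab v c hc
  have okpl : (Cl.pl : Cl K).ok C.code := trivial
  have oka1 : ∀ κ, (Cl.a1 κ : Cl K).ok C.code := fun _ => trivial
  have oka2 : ∀ κ, (Cl.a2 κ : Cl K).ok C.code := fun _ => trivial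
  have okr : ∀ κ, (Cl.r κ : Cl K).ok C.code := fun _ => trivial
  have Ipl : ∀ v : FullV k C lab, Plv (full k C S lab) v → fb v = Fb.root := by
    intro v hv
    have := (I v Cl.pl okpl).1 hv
    exact clOf_pl.1 this.symm
  have okparc : ∀ c : Cl K, c.ok C.code → c.par.ok C.code := by
    intro c hc
    cases c with
    | pl => exact hc
    | a1 κ => trivial
    | a2 κ => trivial
    | r κ => trivial
    | l κ => trivial
    | m κ i j =>
      simp only [Cl.ok] at hc
      simp only [Cl.par]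
      split_ifs with hj
      · trivial
      · simp only [Cl.ok]; exact ⟨hc.1, by omega, by omega⟩
  constructor
  case ex =>
    intro v
    exact ⟨clOf (fb v), ok_clOf (ok_fb v), (I v _ (ok_clOf (ok_fb v))).2 rfl⟩
  case un =>
    intro v c c' hc hc' h h'
    rw [(I v c hc).1 h, (I v c' hc').1 h']
  case up =>
    intro v c hc h hpl
    have h1 := (I v c hc).1 h
    have hr : fb v ≠ Fb.root := by
      intro h2; apply hpl; rw [h1, h2]; rfl
    refine ⟨at' v (fb v).par (ok_par (ok_fb v)), ⟨?_, ?_⟩, ?_⟩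
    · exact (adj_iff _ _).2 (Or.inr ⟨rfl, Or.inl ⟨hr, rfl⟩⟩)
    · refine (I _ _ (okparc c hc)).2 ?_
      show c.par = clOf ((fb v).par)
      rw [clOf_par, h1]
    · rintro w ⟨hw, hw2⟩
      obtain ⟨e1, e2⟩ := adj_own hw (Or.inl hr)
      refine ext' e1.symm ?_
      show fb w = (fb v).par
      rcases e2 with ⟨_, e2⟩ | ⟨e3, e2⟩
      · exact e2
      · exfalso
        have h3 := (I _ _ (okparc c hc)).1 hw2
        have h4 : clOf (fb w) ≠ Cl.pl := fun h => e3 (clOf_pl.1 h)
        apply par_par h4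
        rw [← clOf_par, ← e2, ← h1, h3]
  case dn =>
    intro v c c' hc hc' h hpl hpar hna1 hnl
    have h1 := (I v c hc).1 h
    cases c' with
    | pl => exact absurd rfl hpl
    | a1 κ => exact absurd rfl (hna1 κ)
    | l κ => exact absurd rfl (hnl κ)
    | a2 κ =>
      have h2 : Cl.a1 κ = clOf (fb v) := by rw [← h1, ← hpar]; rfl
      obtain ⟨b, hb⟩ := clOf_a1 h2
      refine ⟨at' v (Fb.a2 κ b) trivial, ⟨?_, ?_⟩, ?_⟩
      · refine (adj_iff _ _).2 (Or.inr ⟨rfl, ?_⟩)
        rw [hb]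
        exact Or.inr ⟨by simp [fb, at'], rfl⟩
      · exact (I _ _ hc').2 rfl
      · rintro w ⟨hw, hw2⟩
        obtain ⟨e1, e2⟩ := adj_own hw (Or.inl (by rw [hb]; simp))
        obtain ⟨b', hb'⟩ := clOf_a2 ((I _ _ hc').1 hw2)
        rw [hb, hb'] at e2
        refine ext' e1.symm ?_
        show fb w = Fb.a2 κ b
        rw [hb', a2_of e2]
    | r κ =>
      have h2 : Cl.a2 κ = clOf (fb v) := by rw [← h1, ← hpar]; rfl
      obtain ⟨b, hb⟩ := clOf_a2 h2
      refine ⟨at' v (Fb.r κ b) trivial, ⟨?_, ?_⟩, ?_⟩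
      · refine (adj_iff _ _).2 (Or.inr ⟨rfl, ?_⟩)
        rw [hb]
        exact Or.inr ⟨by simp [fb, at'], rfl⟩
      · exact (I _ _ hc').2 rfl
      · rintro w ⟨hw, hw2⟩
        obtain ⟨e1, e2⟩ := adj_own hw (Or.inl (by rw [hb]; simp))
        obtain ⟨b', hb'⟩ := clOf_r ((I _ _ hc').1 hw2)
        rw [hb, hb'] at e2
        refine ext' e1.symm ?_
        show fb w = Fb.r κ b
        rw [hb', r_of e2]
    | m κ i j =>
      have hc2 := hc'
      simp only [Cl.ok] at hc2
      by_cases hj : j ≤ 1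
      · have h2 : Cl.a1 κ = clOf (fb v) := by
          rw [← h1, ← hpar]; simp only [Cl.par]; rw [if_pos hj]
        obtain ⟨b, hb⟩ := clOf_a1 h2
        refine ⟨at' v (Fb.mk κ b i j) hc2, ⟨?_, ?_⟩, ?_⟩
        · refine (adj_iff _ _).2 (Or.inr ⟨rfl, ?_⟩)
          rw [hb]
          refine Or.inr ⟨by simp [fb, at'], ?_⟩
          show Fb.a1 κ b = (Fb.mk κ b i j).par
          simp only [Fb.par]; rw [if_pos hj]
        · exact (I _ _ hc').2 rfl
        · rintro w ⟨hw, hw2⟩
          obtain ⟨e1, e2⟩ := adj_own hw (Or.inl (by rw [hb]; simp))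
          obtain ⟨b', hb'⟩ := clOf_m ((I _ _ hc').1 hw2)
          rw [hb, hb'] at e2
          refine ext' e1.symm ?_
          show fb w = Fb.mk κ b i j
          rw [hb', mk1_of e2]
      · have h2 : Cl.m κ i (j - 1) = clOf (fb v) := by
          rw [← h1, ← hpar]; simp only [Cl.par]; rw [if_neg hj]
        obtain ⟨b, hb⟩ := clOf_m h2
        refine ⟨at' v (Fb.mk κ b i j) hc2, ⟨?_, ?_⟩, ?_⟩
        · refine (adj_iff _ _).2 (Or.inr ⟨rfl, ?_⟩)
          rw [hb]
          refine Or.inr ⟨by simp [fb, at'], ?_⟩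
          show Fb.mk κ b i (j - 1) = (Fb.mk κ b i j).par
          simp only [Fb.par]; rw [if_neg hj]
        · exact (I _ _ hc').2 rfl
        · rintro w ⟨hw, hw2⟩
          obtain ⟨e1, e2⟩ := adj_own hw (Or.inl (by rw [hb]; simp))
          obtain ⟨b', hb'⟩ := clOf_m ((I _ _ hc').1 hw2)
          rw [hb, hb'] at e2
          refine ext' e1.symm ?_
          show fb w = Fb.mk κ b i j
          rw [hb', mk_of (by omega) e2]
  case dn2 =>
    intro v κ hv
    have hr := Ipl v hv
    refine ⟨at' v (Fb.a1 κ false) trivial, at' v (Fb.a1 κ true) trivial, ?_, ⟨?_, ?_⟩, ⟨?_, ?_⟩, ?_⟩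
    · intro h
      have h2 : fb (at' v (Fb.a1 κ false) trivial) = fb (at' v (Fb.a1 κ true) trivial) := by
        rw [h]
      simp [fb, at'] at h2
    · refine (adj_iff _ _).2 (Or.inr ⟨rfl, ?_⟩)
      rw [hr]
      exact Or.inr ⟨by simp [fb, at'], rfl⟩
    · exact (I _ _ (oka1 κ)).2 rfl
    · refine (adj_iff _ _).2 (Or.inr ⟨rfl, ?_⟩)
      rw [hr]
      exact Or.inr ⟨by simp [fb, at'], rfl⟩
    · exact (I _ _ (oka1 κ)).2 rfl
    · intro w hw hw2
      obtain ⟨b, hb⟩ := clOf_a1 ((I _ _ (oka1 κ)).1 hw2)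
      obtain ⟨e1, e2⟩ := adj_own hw (Or.inr (by rw [hb]; simp))
      cases b with
      | false => exact Or.inl (ext' e1.symm hb)
      | true => exact Or.inr (ext' e1.symm hb)
  case nb =>
    intro v w c c' hc hc' hvw h h'
    have h1 := (I v c hc).1 h
    have h2 := (I w c' hc').1 h'
    rcases (adj_iff v w).1 hvw with ⟨_, e1, e2⟩ | ⟨_, ⟨e1, e2⟩ | ⟨e1, e2⟩⟩
    · left
      rw [h1, h2, e1, e2]
      exact ⟨rfl, rfl⟩
    · right; left
      refine ⟨?_, ?_⟩
      · intro h3; exact e1 (clOf_pl.1 (h1 ▸ h3))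
      · rw [h2, h1, e2, clOf_par]
    · right; right
      refine ⟨?_, ?_⟩
      · intro h3; exact e1 (clOf_pl.1 (h2 ▸ h3))
      · rw [h2, h1, e2, clOf_par]
  case rdeg =>
    intro v κ h
    obtain ⟨b, hb⟩ := clOf_r ((I _ _ (okr κ)).1 h)
    have hd := (hD k hk hK C S lab v).2 (by rw [hb]; simp)
    rw [hb] at hd
    refine ⟨(hd _).2 ?_, fun h3 => ?_⟩
    · simp only [fdeg]; omega
    · have h4 := (hd _).1 h3
      simp only [fdeg] at h4
      split_ifs at h4 <;> omega
  case str =>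
    intro v κ w1 w2 x1 x2 y1 y2 hv hne hvw1 hw1 hwx1 hx1 hxy1 hy1 hvw2 hw2 hwx2 hx2 hxy2 hy2
    rintro ⟨hd1, hd2⟩
    have key : ∀ w x y, (full k C S lab).Adj v w → Is k C.code (full k C S lab) (Cl.a1 κ) w →
        (full k C S lab).Adj w x → Is k C.code (full k C S lab) (Cl.a2 κ) x →
        (full k C S lab).Adj x y → Is k C.code (full k C S lab) (Cl.r κ) y →
        DegGe (full k C S lab) (MM k + 2) y → own w = own v ∧ fb w = Fb.a1 κ true := by
      intro w x y hvw hw hwx hx hxy hy hd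
      obtain ⟨b, hb⟩ := clOf_a1 ((I _ _ (oka1 κ)).1 hw)
      obtain ⟨b', hb'⟩ := clOf_a2 ((I _ _ (oka2 κ)).1 hx)
      obtain ⟨b'', hb''⟩ := clOf_r ((I _ _ (okr κ)).1 hy)
      obtain ⟨e1, _⟩ := adj_own hvw (Or.inr (by rw [hb]; simp))
      obtain ⟨_, e2⟩ := adj_own hwx (Or.inr (by rw [hb']; simp))
      obtain ⟨_, e3⟩ := adj_own hxy (Or.inr (by rw [hb'']; simp))
      rw [hb, hb'] at e2
      rw [hb', hb''] at e3
      have f2 := a2_of e2
      have f3 := r_of e3
      have hd' := ((hD k hk hK C S lab y).2 (by rw [hb'']; simp) _).1 hd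
      rw [hb''] at hd'
      simp only [fdeg] at hd'
      split_ifs at hd' with h5
      · refine ⟨e1.symm, ?_⟩
        rw [hb, ← f2, ← f3, h5.1]
      · omega
    obtain ⟨o1, n1⟩ := key w1 x1 y1 hvw1 hw1 hwx1 hx1 hxy1 hy1 hd1
    obtain ⟨o2, n2⟩ := key w2 x2 y2 hvw2 hw2 hwx2 hx2 hxy2 hy2 hd2
    exact hne (ext' (o1.trans o2.symm) (n1.trans n2.symm))

end Pool.Agent.Helper36.LD
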